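import Mathlib
import Pool.Agent.H14.ErgHL
import Pool.Agent.H14.ErgLeb

namespace Pool.Agent.Results.MP_135240_an.Counter

open MeasureTheory Metric Set
open scoped ENNReal

section Defs

variable {X : Type} [MetricSpace X] [MeasurableSpace X]

/-- centred Hardy-Littlewood maximal function -/
noncomputable def Hstar (μ : Measure X) (f : X → ℝ) (x : X) : ℝ≥0∞ :=
  ⨆ (r : ℝ) (_ : 0 < r), (∫⁻ y in ball x r, ‖f y‖ₑ ∂μ) / μ (ball x r)

/-- the Hardy-Littlewood property: weak type (1,1) -/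
def HL (μ : Measure X) : Prop :=
  ∃ C : ℝ, 1 ≤ C ∧ ∀ f : X → ℝ, Integrable f μ → ∀ ε : ℝ, 0 < ε →
    μ {x | ENNReal.ofReal ε ≤ Hstar μ f x} ≤ ENNReal.ofReal (C * (∫ x, |f x| ∂μ) / ε)

/-- ergodic average -/
noncomputable def avg (T : X → X) (f : X → ℝ) (k : ℕ) (x : X) : ℝ :=
  (1 / (k : ℝ)) * ∑ j ∈ Finset.range k, f (T^[j] x)

/-- ball average of the ergodic average -/
noncomputable def U (μ : Measure X) (T : X → X) (f : X → ℝ) (r : ℝ) (k : ℕ) (x : X) : ℝ :=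
  (μ.real (ball x r))⁻¹ * ∫ y in ball x r, avg T f k y ∂μ

/-- the joint limit as r decreases to 0 and k tends to infinity equals L -/
def JointLim (μ : Measure X) (T : X → X) (f : X → ℝ) (x : X) (L : ℝ) : Prop :=
  ∀ ε : ℝ, 0 < ε → ∃ r₀ : ℝ, 0 < r₀ ∧ ∃ K : ℕ, ∀ (r : ℝ) (k : ℕ), 0 < r → r < r₀ → K ≤ k →
    1 ≤ k → |U μ T f r k x - L| < ε

end Defs

open Pool.Agent.H14.ErgLeb

theorem hl : HL μ := by
  obtain ⟨N, hN⟩ := Pool.Agent.H14.ErgHL.weak (α := X)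
  refine ⟨2 * N + 1, by linarith [Nat.cast_nonneg (α := ℝ) N], fun φ hφ ε hε => ?_⟩
  have h := hN μ (μ.withDensity fun y => ‖φ y‖ₑ) (ENNReal.ofReal ε) (by simpa using hε)
    ENNReal.ofReal_ne_top
  simp only [withDensity_apply _ measurableSet_ball, withDensity_apply _ MeasurableSet.univ,
    Measure.restrict_univ] at h
  refine h.trans ?_
  have h0 : 0 ≤ ∫ x, |φ x| ∂μ := integral_nonneg fun _ => abs_nonneg _
  have h1 : ∫⁻ y, ‖φ y‖ₑ ∂μ = ENNReal.ofReal (∫ x, |φ x| ∂μ) :=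
    (ofReal_integral_norm_eq_lintegral_enorm hφ).symm
  rw [h1]
  have h2 : (N : ℝ≥0∞) * (2 / ENNReal.ofReal ε * ENNReal.ofReal (∫ x, |φ x| ∂μ)) =
      ENNReal.ofReal (N * (2 / ε * ∫ x, |φ x| ∂μ)) := by
    rw [ENNReal.ofReal_mul (Nat.cast_nonneg N), ENNReal.ofReal_mul (by positivity),
      ENNReal.ofReal_div_of_pos hε, ENNReal.ofReal_natCast]
    simp
  rw [h2]
  refine ENNReal.ofReal_le_ofReal ?_
  have : (N : ℝ) * (2 / ε * ∫ x, |φ x| ∂μ) = 2 * N * (∫ x, |φ x| ∂μ) / ε := by ring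
  rw [this]
  gcongr
  linarith

theorem pos_ball {s : ℝ} (hs : s ∈ Ico (0 : ℝ) 1) (n : ℕ) :
    μ (ball (e s) (2 / 2 ^ n)) ≠ 0 := by
  intro h
  obtain ⟨k, -, hk⟩ := low_int hs n
  rw [setIntegral_measure_zero _ h] at hk
  have : (0 : ℝ) < 1 / 2 / 2 ^ n := by positivity
  linarith

theorem small {r : ℝ} (hr : 0 < r) (K : ℕ) : ∃ n : ℕ, K ≤ 2 ^ n ∧ (2 : ℝ) / 2 ^ n < r := by
  obtain ⟨n, hn⟩ := exists_nat_gt (2 / r)
  refine ⟨n + K, le_trans (by omega) Nat.lt_two_pow_self.le, ?_⟩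
  have h1 : ((n + K : ℕ) : ℝ) < 2 ^ (n + K) := by exact_mod_cast Nat.lt_two_pow_self
  push_cast at h1
  rw [div_lt_iff₀ hr] at hn
  rw [div_lt_iff₀ (by positivity)]
  have : (0 : ℝ) ≤ K := Nat.cast_nonneg K
  nlinarith

theorem result : ∃ (X : Type) (_ : MetricSpace X) (_ : MeasurableSpace X) (_ : BorelSpace X)
    (μ : Measure X) (_ : IsProbabilityMeasure μ) (T : X → X),
    MeasurePreserving T μ μ ∧ HL μ ∧ ∃ f : X → ℝ, Integrable f μ ∧
      ∃ S : Set X, MeasurableSet S ∧ 0 < μ S ∧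
        ∀ x ∈ S, (∀ r : ℝ, 0 < r → 0 < μ (ball x r)) ∧ ∀ L : ℝ, ¬ JointLim μ T f x L := by
  refine ⟨X, inferInstance, inferInstance, inferInstance, μ, inferInstance, T, T_pres, hl, f,
    f_int, Ico 0 1 ×ˢ ({0} ×ˢ {0}), ?_, ?_, ?_⟩
  · exact measurableSet_Ico.prod ((measurableSet_singleton _).prod (measurableSet_singleton _))
  · have hm : MeasurableSet (Ico (0 : ℝ) 1 ×ˢ (({0} : Set ℝ) ×ˢ ({0} : Set ℝ))) :=
      measurableSet_Ico.prod ((measurableSet_singleton _).prod (measurableSet_singleton _))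
    have h0 : μ0 (Ico (0 : ℝ) 1 ×ˢ (({0} : Set ℝ) ×ˢ ({0} : Set ℝ))) = 1 := by
      rw [μ0, Measure.map_apply e_meas hm]
      have : e ⁻¹' (Ico (0 : ℝ) 1 ×ˢ (({0} : Set ℝ) ×ˢ ({0} : Set ℝ))) = Ico 0 1 := by
        ext t; simp [e]
      rw [this]; simp
    rw [μ, Measure.add_apply, Measure.smul_apply, h0]
    refine lt_of_lt_of_le ?_ le_self_add
    simp
  · rintro ⟨s, y, z⟩ ⟨hs, hy, hz⟩
    simp only [mem_singleton_iff] at hs hy hz
    subst hy hz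
    change (∀ r : ℝ, 0 < r → 0 < μ (ball (e s) r)) ∧ ∀ L : ℝ, ¬ JointLim μ T f (e s) L
    refine ⟨fun r hr => ?_, fun L hL => ?_⟩
    · obtain ⟨n, -, hn⟩ := small hr 0
      exact lt_of_lt_of_le (pos_iff_ne_zero.2 (pos_ball hs n))
        (measure_mono (ball_subset_ball hn.le))
    · obtain ⟨r₀, hr₀, K, hK⟩ := hL (1 / 12) (by norm_num)
      obtain ⟨n, hn1, hn2⟩ := small hr₀ K
      obtain ⟨k, hk1, hk2⟩ := low_int hs n
      have h1 := hK _ (2 ^ n) (by positivity) hn2 hn1 Nat.one_le_two_pow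
      have h2 := hK _ k (by positivity) hn2 (hn1.trans hk1) (Nat.one_le_two_pow.trans hk1)
      have h3 : U μ T f (2 / 2 ^ n) (2 ^ n) (e s) = 0 := by
        have := zero_int hs n
        unfold U; unfold A at this; unfold avg; rw [this, mul_zero]
      have h4 : 1 / 6 ≤ U μ T f (2 / 2 ^ n) k (e s) := by
        have hb : μ.real (ball (e s) (2 / 2 ^ n)) ≤ 3 / 2 ^ n := by
          have := ENNReal.toReal_mono (by finiteness) (ball_meas hs n)
          simpa [div_eq_mul_inv, measureReal_def] using this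
        have hp : 0 < μ.real (ball (e s) (2 / 2 ^ n)) :=
          ENNReal.toReal_pos (pos_ball hs n) (measure_ne_top _ _)
        change 1 / 6 ≤ (μ.real (ball (e s) (2 / 2 ^ n)))⁻¹ *
          ∫ y in ball (e s) (2 / 2 ^ n), A k y ∂μ
        rw [← div_eq_inv_mul, le_div_iff₀ hp]
        have : (1 : ℝ) / 6 * (3 / 2 ^ n) = 1 / 2 / 2 ^ n := by ring
        linarith
      rw [h3, abs_lt] at h1
      rw [abs_lt] at h2
      linarith [h1.1, h2.2]

end Pool.Agent.Results.MP_135240_an.Counter
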